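import Pool.Agent.Helper20.QD.St1

/-!
# Project QD, part B, module TGR: the grid theorem
-/

set_option autoImplicit false

open Filter Topology Matrix Set Metric
open scoped ComplexConjugate

namespace Pool.Agent.Helper81.QD

open Pool.Agent.Helper35.PM Pool.Agent.Helper20.QD

/-! ### squares -/

theorem sq_eq (s : ℤ × ℤ) : Helper20.QD.sq s = Complex.re ⁻¹' Icc (s.1 : ℝ) ((s.1 : ℝ) + 1) ∩
    Complex.im ⁻¹' Icc (s.2 : ℝ) ((s.2 : ℝ) + 1) := by
  ext z
  simp only [Helper20.QD.sq, mem_ofPred_eq, mem_inter_iff, mem_preimage, mem_Icc]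
  tauto

theorem sq_convex (s : ℤ × ℤ) : Convex ℝ (Helper20.QD.sq s) := by
  rw [sq_eq]
  exact ((convex_Icc _ _).linear_preimage Complex.reLm).inter
    ((convex_Icc _ _).linear_preimage Complex.imLm)

theorem sq_closed (s : ℤ × ℤ) : IsClosed (Helper20.QD.sq s) := by
  rw [sq_eq]
  exact (isClosed_Icc.preimage Complex.continuous_re).inter
    (isClosed_Icc.preimage Complex.continuous_im)

theorem cen_mem {s t : ℤ × ℤ} (h : cen t ∈ Helper20.QD.sq s) : s = t := by
  obtain ⟨h1, h2, h3, h4⟩ := h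
  simp only [cen] at h1 h2 h3 h4
  have e1 : s.1 ≤ t.1 := by
    have : (s.1 : ℝ) < (t.1 : ℝ) + 1 := by linarith
    have : s.1 < t.1 + 1 := by exact_mod_cast this
    omega
  have e2 : t.1 ≤ s.1 := by
    have : (t.1 : ℝ) < (s.1 : ℝ) + 1 := by linarith
    have : t.1 < s.1 + 1 := by exact_mod_cast this
    omega
  have e3 : s.2 ≤ t.2 := by
    have : (s.2 : ℝ) < (t.2 : ℝ) + 1 := by linarith
    have : s.2 < t.2 + 1 := by exact_mod_cast this
    omega
  have e4 : t.2 ≤ s.2 := by
    have : (t.2 : ℝ) < (s.2 : ℝ) + 1 := by linarith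
    have : t.2 < s.2 + 1 := by exact_mod_cast this
    omega
  exact Prod.ext (le_antisymm e1 e2) (le_antisymm e3 e4)

/-! ### logarithms on connected sets -/

theorem log_const {X : Set ℂ} {g h : ℂ → ℂ} (hX : IsPreconnected X) (hg : ContinuousOn g X)
    (hh : ContinuousOn h X) (he : ∀ z ∈ X, Complex.exp (g z) = Complex.exp (h z))
    {a b : ℂ} (ha : a ∈ X) (hb : b ∈ X) {k : ℤ} (hk : g a = h a + k * (2 * Real.pi * Complex.I)) :
    g b = h b + k * (2 * Real.pi * Complex.I) := by
  have hpi : (2 * Real.pi * Complex.I : ℂ) ≠ 0 := Complex.two_pi_I_ne_zero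
  have hint : ∀ z ∈ X, ∃ n : ℤ, g z = h z + n * (2 * Real.pi * Complex.I) := fun z hz =>
    Complex.exp_eq_exp_iff_exists_int.1 (he z hz)
  obtain ⟨n, hn⟩ := hint b hb
  set f : ℂ → ℝ := fun z => ((g z - h z) / (2 * Real.pi * Complex.I)).re with hf
  have hfc : ContinuousOn f X :=
    Complex.continuous_re.comp_continuousOn ((hg.sub hh).div_const _)
  have hval : ∀ z (m : ℤ), g z = h z + m * (2 * Real.pi * Complex.I) → f z = m := by
    intro z m hm
    have : (g z - h z) / (2 * Real.pi * Complex.I) = (m : ℂ) := by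
      rw [hm, add_sub_cancel_left, mul_div_cancel_right₀ _ hpi]
    show ((g z - h z) / (2 * Real.pi * Complex.I)).re = m
    rw [this]
    simp
  have hima : (f '' X).OrdConnected := (hX.image f hfc).ordConnected
  have hno : ∀ p q : ℤ, p < q → (p : ℝ) ∈ f '' X → (q : ℝ) ∈ f '' X → False := by
    intro p q hpq hp hq
    have h1 : (p : ℝ) + 1 / 2 ∈ f '' X := by
      refine hima.out hp hq ⟨by linarith, ?_⟩
      have : (p : ℝ) + 1 ≤ q := by exact_mod_cast hpq
      linarith
    obtain ⟨z, hz, hz'⟩ := h1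
    obtain ⟨m, hm⟩ := hint z hz
    rw [hval z m hm] at hz'
    have h2 : (2 * m : ℝ) = 2 * p + 1 := by linarith
    have h3 : (2 * m : ℤ) = 2 * p + 1 := by exact_mod_cast h2
    omega
  have hka : (k : ℝ) ∈ f '' X := ⟨a, ha, hval a k hk⟩
  have hnb : (n : ℝ) ∈ f '' X := ⟨b, hb, hval b n hn⟩
  rcases lt_trichotomy k n with h1 | h1 | h1
  · exact (hno k n h1 hka hnb).elim
  · rw [hn, h1]
  · exact (hno n k h1 hnb hka).elim

theorem glue {A B : Set ℂ} {g h w : ℂ → ℂ} (hA : IsClosed A) (hB : IsClosed B)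
    (hg : ContinuousOn g A) (hh : ContinuousOn h B) (hgh : ∀ z ∈ A, z ∈ B → g z = h z)
    (hwg : ∀ z ∈ A, w z = Complex.exp (g z)) (hwh : ∀ z ∈ B, w z = Complex.exp (h z)) :
    LogOn (A ∪ B) w := by
  classical
  refine ⟨fun z => if z ∈ A then g z else h z, ?_, ?_⟩
  · have h1 : ContinuousOn (fun z => if z ∈ A then g z else h z) A :=
      hg.congr fun z hz => if_pos hz
    have h2 : ContinuousOn (fun z => if z ∈ A then g z else h z) B := by
      refine hh.congr fun z hz => ?_
      by_cases hz' : z ∈ A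
      · show (if z ∈ A then g z else h z) = h z
        rw [if_pos hz', hgh z hz' hz]
      · exact if_neg hz'
    exact h1.union_of_isClosed h2 hA hB
  · intro z hz
    by_cases hz' : z ∈ A
    · show w z = Complex.exp (if z ∈ A then g z else h z)
      rw [if_pos hz', hwg z hz']
    · show w z = Complex.exp (if z ∈ A then g z else h z)
      rw [if_neg hz']
      exact hwh z (hz.resolve_left hz')

/-- the logarithm on the complement of a ray -/
theorem log_up {w : ℂ} (h : 0 < w.im) : Complex.log (-w) + Real.pi * Complex.I = Complex.log w := by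
  rw [Complex.log, Complex.log, norm_neg, Complex.arg_neg_eq_arg_sub_pi_of_im_pos h]
  push_cast
  ring

theorem log_dn {w : ℂ} (h : w.im < 0) : Complex.log (-w) + Real.pi * Complex.I =
    Complex.log w + 2 * Real.pi * Complex.I := by
  rw [Complex.log, Complex.log, norm_neg, Complex.arg_neg_eq_arg_add_pi_of_im_neg h]
  push_cast
  ring

/-! ### the induction -/

/-- lexicographically largest element -/
theorem exists_lex (S : Finset (ℤ × ℤ)) (hS : S.Nonempty) : ∃ B ∈ S, ∀ s ∈ S,
    s.1 < B.1 ∨ (s.1 = B.1 ∧ s.2 ≤ B.2) := by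
  obtain ⟨B, hB, hmax⟩ := S.exists_max_image (fun s => toLex s) hS
  refine ⟨B, hB, fun s hs => ?_⟩
  have := hmax s hs
  rw [Prod.Lex.toLex_le_toLex] at this
  exact this

theorem hTGR (hTCV : StTCV) : StTGR := by
  classical
  intro S
  induction hc : S.card using Nat.strong_induction_on generalizing S with
  | _ c ih =>
  intro u hu hu0
  rcases S.eq_empty_or_nonempty with rfl | hS
  · refine ⟨fun _ => 0, fun _ => 0, continuousOn_const, ?_⟩
    intro z hz
    simp at hz
  obtain ⟨B, hB, hlex⟩ := exists_lex S hS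
  obtain ⟨i, j⟩ := B
  set S' := S.erase (i, j) with hS'
  have hcard : S'.card < c := by
    rw [← hc]
    exact Finset.card_erase_lt_of_mem hB
  have hSS : ∀ s ∈ S', s ∈ S := fun s hs => Finset.mem_of_mem_erase hs
  have hlt : ∀ s ∈ S', s.1 < i ∨ (s.1 = i ∧ s.2 < j) := by
    intro s hs
    rcases hlex s (hSS s hs) with h | ⟨h1, h2⟩
    · exact Or.inl h
    · right
      refine ⟨h1, lt_of_le_of_ne h2 fun h3 => ?_⟩
      exact (Finset.ne_of_mem_erase hs) (Prod.ext h1 h3)
  have hunion : (⋃ s ∈ S, Helper20.QD.sq s) = (⋃ s ∈ S', Helper20.QD.sq s) ∪ Helper20.QD.sq (i, j) := by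
    have : S = insert (i, j) S' := (Finset.insert_erase hB).symm
    rw [this, Finset.set_biUnion_insert, union_comm]
  set A : Set ℂ := ⋃ s ∈ S', Helper20.QD.sq s with hA
  set K : Set ℂ := ⋃ s ∈ S, Helper20.QD.sq s with hK
  have hAK : A ⊆ K := by rw [hunion]; exact subset_union_left
  have hBK : Helper20.QD.sq (i, j) ⊆ K := by rw [hunion]; exact subset_union_right
  have hAc : IsClosed A := isClosed_biUnion_finset fun s _ => sq_closed s
  have hmemA : ∀ z, z ∈ A ↔ ∃ s ∈ S', z ∈ Helper20.QD.sq s := by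
    intro z
    rw [hA]
    simp only [mem_iUnion, exists_prop]
  have hmemK : ∀ z, z ∈ K ↔ ∃ s ∈ S, z ∈ Helper20.QD.sq s := by
    intro z
    rw [hK]
    simp only [mem_iUnion, exists_prop]
  obtain ⟨n', g, hgc, hg⟩ := ih S'.card hcard S' rfl u (hu.mono hAK) (fun z hz => hu0 z (hAK hz))
  set T' := (S'.image fun s => (s.1 - 1, s.2)) \ S' with hT'
  set T := (S.image fun s => (s.1 - 1, s.2)) \ S with hT
  have hTT : T' ⊆ T := by
    intro t ht
    rw [hT', Finset.mem_sdiff, Finset.mem_image] at ht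
    obtain ⟨⟨s, hs, rfl⟩, hts⟩ := ht
    rw [hT, Finset.mem_sdiff, Finset.mem_image]
    refine ⟨⟨s, hSS s hs, rfl⟩, fun h => hts ?_⟩
    rw [hS', Finset.mem_erase]
    refine ⟨fun h1 => ?_, h⟩
    have h2 : s.1 - 1 = i := congrArg Prod.fst h1
    rcases hlt s hs with h3 | ⟨h3, _⟩ <;> omega
  have hcen : ∀ t ∈ T, ∀ z ∈ K, z - cen t ≠ 0 := by
    intro t ht z hz h
    rw [hT, Finset.mem_sdiff] at ht
    obtain ⟨s, hs, hzs⟩ := (hmemK z).1 hz
    have h1 : z = cen t := sub_eq_zero.1 h
    rw [h1] at hzs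
    rw [cen_mem hzs] at hs
    exact ht.2 hs
  set v : ℂ → ℂ := fun z => u z * ∏ t ∈ T', (z - cen t) ^ (n' t) with hv
  have hvc : ContinuousOn v K := by
    refine hu.mul (continuousOn_finsetProd _ fun t ht => ?_)
    refine ContinuousOn.zpow₀ (continuousOn_id.sub continuousOn_const) _ fun z hz => ?_
    exact Or.inl (hcen t (hTT ht) z hz)
  have hv0 : ∀ z ∈ K, v z ≠ 0 := by
    intro z hz
    refine mul_ne_zero (hu0 z hz) (Finset.prod_ne_zero_iff.2 fun t ht => ?_)
    exact zpow_ne_zero _ (hcen t (hTT ht) z hz)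
  obtain ⟨h, hhc, hh⟩ := hTCV (Helper20.QD.sq (i, j)) v (sq_convex _) (hvc.mono hBK)
    (fun z hz => hv0 z (hBK hz))
  have hexp : ∀ z ∈ A ∩ Helper20.QD.sq (i, j), Complex.exp (g z) = Complex.exp (h z) := by
    intro z hz
    rw [← hh z hz.2, ← hg z hz.1]
  -- equality of the integers along a square
  have hseg : ∀ (s : ℤ × ℤ), s ∈ S' → ∀ a b : ℂ, a ∈ Helper20.QD.sq s → a ∈ Helper20.QD.sq (i, j) → b ∈ Helper20.QD.sq s →
      b ∈ Helper20.QD.sq (i, j) → ∀ k : ℤ, g a = h a + k * (2 * Real.pi * Complex.I) →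
      g b = h b + k * (2 * Real.pi * Complex.I) := by
    intro s hs a b ha ha' hb hb' k hk
    have hsub : Helper20.QD.sq s ∩ Helper20.QD.sq (i, j) ⊆ A ∩ Helper20.QD.sq (i, j) := fun z hz => ⟨(hmemA z).2 ⟨s, hs, hz.1⟩, hz.2⟩
    exact log_const ((sq_convex s).inter (sq_convex _)).isPreconnected
      (hgc.mono fun z hz => (hsub hz).1) (hhc.mono fun z hz => hz.2)
      (fun z hz => hexp z (hsub hz)) ⟨ha, ha'⟩ ⟨hb, hb'⟩ hk
  have hint : ∀ z ∈ A ∩ Helper20.QD.sq (i, j), ∃ k : ℤ, g z = h z + k * (2 * Real.pi * Complex.I) := fun z hz =>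
    Complex.exp_eq_exp_iff_exists_int.1 (hexp z hz)
  -- position of the common points
  have hpos : ∀ z ∈ A ∩ Helper20.QD.sq (i, j), (z.re = i ∧ ∃ s ∈ S', s.1 = i - 1 ∧ z ∈ Helper20.QD.sq s ∧
      (s.2 = j - 1 ∨ s.2 = j ∨ s.2 = j + 1)) ∨ (z.im = j ∧ ((i, j - 1) : ℤ × ℤ) ∈ S') := by
    intro z hz
    obtain ⟨s, hs, hzs⟩ := (hmemA z).1 hz.1
    obtain ⟨a1, a2, a3, a4⟩ := hzs
    obtain ⟨b1, b2, b3, b4⟩ := hz.2
    have c1 : i - 1 ≤ s.1 := by
      have : (i : ℝ) ≤ (s.1 : ℝ) + 1 := by simpa using b1.trans a2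
      have : i ≤ s.1 + 1 := by exact_mod_cast this
      omega
    have c2 : j - 1 ≤ s.2 := by
      have : (j : ℝ) ≤ (s.2 : ℝ) + 1 := by simpa using b3.trans a4
      have : j ≤ s.2 + 1 := by exact_mod_cast this
      omega
    have c3 : s.2 ≤ j + 1 := by
      have : (s.2 : ℝ) ≤ (j : ℝ) + 1 := by simpa using a3.trans b4
      exact_mod_cast this
    rcases hlt s hs with h1 | ⟨h1, h2⟩
    · left
      have h3 : s.1 = i - 1 := by omega
      refine ⟨?_, s, hs, h3, ⟨a1, a2, a3, a4⟩, by omega⟩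
      have h4 : (s.1 : ℝ) = i - 1 := by rw [h3]; push_cast; ring
      have b1' : (i : ℝ) ≤ z.re := b1
      linarith
    · right
      have h3 : s.2 = j - 1 := by omega
      have h4 : (s.2 : ℝ) = j - 1 := by rw [h3]; push_cast; ring
      have b3' : (j : ℝ) ≤ z.im := b3
      refine ⟨by linarith, ?_⟩
      have : s = (i, j - 1) := Prod.ext h1 h3
      rw [← this]
      exact hs
  by_cases hcase : ((i - 1, j) : ℤ × ℤ) ∈ S'
  · -- connected intersection
    set BL : ℂ := ⟨(i : ℝ), (j : ℝ)⟩ with hBL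
    have hBLB : BL ∈ Helper20.QD.sq (i, j) := ⟨le_rfl, by simp [hBL], le_rfl, by simp [hBL]⟩
    have hBL1 : BL ∈ Helper20.QD.sq (i - 1, j) := by
      refine ⟨?_, ?_, ?_, ?_⟩ <;> simp [hBL]
    have hBLA : BL ∈ A ∩ Helper20.QD.sq (i, j) := ⟨(hmemA _).2 ⟨_, hcase, hBL1⟩, hBLB⟩
    obtain ⟨k, hk⟩ := hint BL hBLA
    have hall : ∀ z ∈ A ∩ Helper20.QD.sq (i, j), g z = h z + k * (2 * Real.pi * Complex.I) := by
      intro z hz
      obtain ⟨b1, b2, b3, b4⟩ := hz.2
      have b3' : (j : ℝ) ≤ z.im := b3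
      have b4' : z.im ≤ (j : ℝ) + 1 := b4
      have b1' : (i : ℝ) ≤ z.re := b1
      have b2' : z.re ≤ (i : ℝ) + 1 := b2
      rcases hpos z hz with ⟨h1, _⟩ | ⟨h1, h2⟩
      · refine hseg _ hcase BL z hBL1 hBLB ?_ hz.2 k hk
        refine ⟨?_, ?_, b3, b4⟩
        · show (((i - 1 : ℤ)) : ℝ) ≤ z.re
          push_cast
          linarith
        · show z.re ≤ (((i - 1 : ℤ)) : ℝ) + 1
          push_cast
          linarith
      · refine hseg _ h2 BL z ?_ hBLB ?_ hz.2 k hk
        · refine ⟨?_, ?_, ?_, ?_⟩ <;> simp [hBL]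
        · refine ⟨b1, b2, ?_, ?_⟩
          · show (((j - 1 : ℤ)) : ℝ) ≤ z.im
            push_cast
            linarith
          · show z.im ≤ (((j - 1 : ℤ)) : ℝ) + 1
            push_cast
            linarith
    refine ⟨fun t => if t ∈ T' then n' t else 0, ?_⟩
    have hprod : ∀ z : ℂ, ∏ t ∈ T, (z - cen t) ^ (if t ∈ T' then n' t else 0) =
        ∏ t ∈ T', (z - cen t) ^ (n' t) := by
      intro z
      rw [← Finset.prod_subset hTT (fun t _ ht => by rw [if_neg ht, zpow_zero])]
      exact Finset.prod_congr rfl fun t ht => by rw [if_pos ht]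
    rw [hunion]
    refine glue (g := g) (h := fun z => h z + k * (2 * Real.pi * Complex.I)) hAc (sq_closed _)
      hgc (hhc.add continuousOn_const) (fun z hz hz' => hall z ⟨hz, hz'⟩) ?_ ?_
    · intro z hz
      show u z * ∏ t ∈ T, (z - cen t) ^ (if t ∈ T' then n' t else 0) = _
      rw [hprod]
      exact hg z hz
    · intro z hz
      show u z * ∏ t ∈ T, (z - cen t) ^ (if t ∈ T' then n' t else 0) = _
      rw [hprod]
      have h1 := hh z hz
      show v z = _
      rw [h1, Complex.exp_add, Complex.exp_int_mul_two_pi_mul_I, mul_one]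
  · -- the ray from the centre of the left neighbour
    set q : ℤ × ℤ := (i - 1, j) with hq
    set p : ℂ := cen q with hp
    have hpre : p.re = (i : ℝ) - 1 / 2 := by
      show (((i - 1 : ℤ)) : ℝ) + 1 / 2 = _
      push_cast
      ring
    have hpim : p.im = (j : ℝ) + 1 / 2 := rfl
    have hqS : q ∉ S := by
      intro h1
      apply hcase
      rw [hS', Finset.mem_erase]
      refine ⟨fun h2 => ?_, h1⟩
      have : i - 1 = i := congrArg Prod.fst h2
      omega
    have hqT : q ∈ T := by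
      rw [hT, Finset.mem_sdiff, Finset.mem_image]
      exact ⟨⟨(i, j), hB, rfl⟩, hqS⟩
    have hqT' : q ∉ T' := by
      rw [hT', Finset.mem_sdiff, Finset.mem_image]
      rintro ⟨⟨s, hs, hsq⟩, _⟩
      have h1 : s.1 - 1 = i - 1 := congrArg Prod.fst hsq
      have h2 : s.2 = j := congrArg Prod.snd hsq
      rcases hlt s hs with h3 | ⟨_, h3⟩ <;> omega
    have hrayA : ∀ z ∈ A, -(z - p) ∈ Complex.slitPlane := by
      intro z hz
      rw [Complex.mem_slitPlane_iff]
      by_contra hcon
      push Not at hcon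
      obtain ⟨h1, h2⟩ := hcon
      simp only [Complex.neg_re, Complex.sub_re, Complex.neg_im, Complex.sub_im, neg_eq_zero]
        at h1 h2
      obtain ⟨s, hs, a1, a2, a3, a4⟩ := (hmemA z).1 hz
      have h3 : z.im = (j : ℝ) + 1 / 2 := by rw [← hpim]; linarith
      have h4 : (i : ℝ) - 1 / 2 ≤ z.re := by rw [← hpre]; linarith
      have e1 : s.2 = j := by
        have g1 : (s.2 : ℝ) < (j : ℝ) + 1 := by linarith
        have g2 : (j : ℝ) < (s.2 : ℝ) + 1 := by linarith
        have g1' : s.2 < j + 1 := by exact_mod_cast g1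
        have g2' : j < s.2 + 1 := by exact_mod_cast g2
        omega
      have e2 : i - 1 ≤ s.1 := by
        have g1 : (i : ℝ) < (s.1 : ℝ) + 1 + 1 := by linarith
        have g1' : i < s.1 + 1 + 1 := by exact_mod_cast g1
        omega
      rcases hlt s hs with h5 | ⟨_, h5⟩
      · have e3 : s.1 = i - 1 := by omega
        have : s = q := Prod.ext e3 e1
        rw [this] at hs
        exact hcase hs
      · omega
    have hBre : ∀ z ∈ Helper20.QD.sq (i, j), 0 < (z - p).re := by
      intro z hz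
      have : (i : ℝ) ≤ z.re := hz.1
      rw [Complex.sub_re, hpre]
      linarith
    have hBslit : ∀ z ∈ Helper20.QD.sq (i, j), z - p ∈ Complex.slitPlane := fun z hz =>
      Complex.mem_slitPlane_iff.2 (Or.inl (hBre z hz))
    -- the two integers
    set TL : ℂ := ⟨(i : ℝ), (j : ℝ) + 1⟩ with hTL
    obtain ⟨d1, hd1⟩ : ∃ d1 : ℤ, ∀ z ∈ A ∩ Helper20.QD.sq (i, j), z ≠ TL →
        z.im = j ∧ g z = h z + d1 * (2 * Real.pi * Complex.I) := by
      have him : ∀ z ∈ A ∩ Helper20.QD.sq (i, j), z ≠ TL → z.im = j ∧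
          (z = (⟨(i : ℝ), (j : ℝ)⟩ : ℂ) ∨ ((i, j - 1) : ℤ × ℤ) ∈ S') := by
        intro z hz hzT
        rcases hpos z hz with ⟨h1, s, hs, hs1, hzs, h3⟩ | ⟨h1, h2⟩
        · rcases h3 with h3 | h3 | h3
          · have h4 : z.im = j := by
              have g1 : z.im ≤ (s.2 : ℝ) + 1 := hzs.2.2.2
              have g2 : (j : ℝ) ≤ z.im := hz.2.2.2.1
              have g3 : (s.2 : ℝ) = j - 1 := by rw [h3]; push_cast; ring
              linarith
            exact ⟨h4, Or.inl (Complex.ext h1 h4)⟩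
          · exfalso
            have : s = q := Prod.ext hs1 h3
            rw [this] at hs
            exact hcase hs
          · exfalso
            apply hzT
            have g1 : (s.2 : ℝ) ≤ z.im := hzs.2.2.1
            have g2 : z.im ≤ (j : ℝ) + 1 := hz.2.2.2.2
            have g3 : (s.2 : ℝ) = j + 1 := by rw [h3]; push_cast; ring
            exact Complex.ext h1 (by show z.im = (j : ℝ) + 1; linarith)
        · exact ⟨h1, Or.inr h2⟩
      by_cases hex : ∃ z0 ∈ A ∩ Helper20.QD.sq (i, j), z0 ≠ TL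
      · obtain ⟨z0, hz0, hz0T⟩ := hex
        obtain ⟨k, hk⟩ := hint z0 hz0
        refine ⟨k, fun z hz hzT => ⟨(him z hz hzT).1, ?_⟩⟩
        obtain ⟨i1, i2⟩ := him z0 hz0 hz0T
        obtain ⟨i3, i4⟩ := him z hz hzT
        have hin : ∀ y ∈ A ∩ Helper20.QD.sq (i, j), y.im = j → y ∈ Helper20.QD.sq (i, j - 1) := by
          intro y hy hyim
          refine ⟨hy.2.1, hy.2.2.1, ?_, ?_⟩
          · show (((j - 1 : ℤ)) : ℝ) ≤ y.im
            push_cast
            linarith
          · show y.im ≤ (((j - 1 : ℤ)) : ℝ) + 1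
            push_cast
            linarith
        rcases i2 with i2 | i2
        · rcases i4 with i4 | i4
          · rw [i4, ← i2]
            exact hk
          · exact hseg _ i4 z0 z (hin z0 hz0 i1) hz0.2 (hin z hz i3) hz.2 k hk
        · exact hseg _ i2 z0 z (hin z0 hz0 i1) hz0.2 (hin z hz i3) hz.2 k hk
      · push Not at hex
        exact ⟨0, fun z hz hzT => absurd (hex z hz) hzT⟩
    obtain ⟨d2, hd2⟩ : ∃ d2 : ℤ, TL ∈ A ∩ Helper20.QD.sq (i, j) →
        g TL = h TL + d2 * (2 * Real.pi * Complex.I) := by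
      by_cases hex : TL ∈ A ∩ Helper20.QD.sq (i, j)
      · obtain ⟨k, hk⟩ := hint TL hex
        exact ⟨k, fun _ => hk⟩
      · exact ⟨0, fun h => absurd h hex⟩
    set m : ℤ := d2 - d1 with hm
    refine ⟨fun t => if t ∈ T' then n' t else if t = q then m else 0, ?_⟩
    have hprod : ∀ z : ℂ, ∏ t ∈ T, (z - cen t) ^ (if t ∈ T' then n' t else if t = q then m else 0) =
        (∏ t ∈ T', (z - cen t) ^ (n' t)) * (z - p) ^ m := by
      intro z
      rw [← Finset.prod_sdiff hTT, mul_comm]
      congr 1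
      · exact Finset.prod_congr rfl fun t ht => by rw [if_pos ht]
      · rw [Finset.prod_eq_single q]
        · rw [if_neg hqT', if_pos rfl]
        · intro t ht htq
          rw [if_neg (Finset.mem_sdiff.1 ht).2, if_neg htq, zpow_zero]
        · intro hnot
          exact absurd (Finset.mem_sdiff.2 ⟨hqT, hqT'⟩) hnot
    rw [hunion]
    refine glue (g := fun z => g z + m * (Complex.log (-(z - p)) + Real.pi * Complex.I))
      (h := fun z => h z + m * Complex.log (z - p) + d2 * (2 * Real.pi * Complex.I))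
      hAc (sq_closed _) ?_ ?_ ?_ ?_ ?_
    · refine hgc.add (continuousOn_const.mul (ContinuousOn.add ?_ continuousOn_const))
      exact ContinuousOn.clog ((continuousOn_id.sub continuousOn_const).neg) hrayA
    · refine (hhc.add (continuousOn_const.mul ?_)).add continuousOn_const
      exact ContinuousOn.clog (continuousOn_id.sub continuousOn_const) hBslit
    · intro z hz hz'
      show g z + m * (Complex.log (-(z - p)) + Real.pi * Complex.I) =
        h z + m * Complex.log (z - p) + d2 * (2 * Real.pi * Complex.I)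
      by_cases hzT : z = TL
      · have h1 : 0 < (z - p).im := by
          rw [hzT, Complex.sub_im, hpim]
          show 0 < (j : ℝ) + 1 - (j + 1 / 2)
          linarith
        rw [log_up h1]
        rw [hzT] at hz hz' ⊢
        rw [hd2 ⟨hz, hz'⟩]
        ring
      · obtain ⟨h0, h1⟩ := hd1 z ⟨hz, hz'⟩ hzT
        have h2 : (z - p).im < 0 := by
          rw [Complex.sub_im, hpim, h0]
          linarith
        rw [log_dn h2, h1, hm]
        push_cast
        ring
    · intro z hz
      show u z * ∏ t ∈ T, (z - cen t) ^ (if t ∈ T' then n' t else if t = q then m else 0) = _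
      have hne : -(z - p) ≠ 0 := Complex.slitPlane_ne_zero (hrayA z hz)
      have h1 : v z = Complex.exp (g z) := hg z hz
      rw [hprod, ← mul_assoc]
      show v z * (z - p) ^ m = _
      rw [h1, Complex.exp_add]
      congr 1
      rw [Complex.exp_int_mul, Complex.exp_add, Complex.exp_log hne, Complex.exp_pi_mul_I]
      congr 1
      ring
    · intro z hz
      show u z * ∏ t ∈ T, (z - cen t) ^ (if t ∈ T' then n' t else if t = q then m else 0) = _
      have hne : z - p ≠ 0 := Complex.slitPlane_ne_zero (hBslit z hz)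
      have h1 := hh z hz
      rw [hprod, ← mul_assoc]
      show v z * (z - p) ^ m = _
      rw [h1, Complex.exp_add, Complex.exp_add, Complex.exp_int_mul_two_pi_mul_I, mul_one,
        Complex.exp_int_mul, Complex.exp_log hne]

end Pool.Agent.Helper81.QD
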