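import Pool.Agent.Helper58.QD.StE

/-!
# Project QD (MP_087a81_gt), module MTG: linear dependence
-/

set_option autoImplicit false
set_option maxSynthPendingDepth 3

open Set Filter Topology MeasureTheory
open scoped ContDiff ENNReal

noncomputable section

namespace Pool.Agent.Helper81.QD

open Helper62.LH Helper62.DSH Helper58.QD

theorem sphere_compact (m : ℕ) : IsCompact {c : Fin m → ℝ | ∑ i, c i ^ 2 = 1} := by
  refine IsCompact.of_isClosed_subset (isCompact_closedBall (0 : Fin m → ℝ) 1)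
    (isClosed_eq (by fun_prop) continuous_const) ?_
  intro c hc
  rw [mem_closedBall_zero_iff, pi_norm_le_iff_of_nonneg zero_le_one]
  intro i
  have h1 : c i ^ 2 ≤ ∑ i, c i ^ 2 :=
    Finset.single_le_sum (f := fun i => c i ^ 2) (fun _ _ => sq_nonneg _) (Finset.mem_univ i)
  rw [mem_setOf_eq] at hc
  rw [hc] at h1
  rw [Real.norm_eq_abs]
  exact (sq_le_one_iff_abs_le_one _).1 h1

theorem q2_cont {n j : ℕ} : Continuous (q2 : Tn n j → ℝ) := by
  unfold q2 ipt
  fun_prop

/-- change of the base point in the decay condition -/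
theorem wdec_base {n m : ℕ} {g : E n → Bl n} {Γ : E n → Bm n} {F : Fin n → E n → E n}
    (hMet : StMet) (hNrm : TNrm) (hg : IsMet g) {p p' : E n} {A : ℝ} (hA : 0 ≤ A)
    (h : WDec g Γ F m p A) : WDec g Γ F m p' ((2 + 2 * dg g p p' ^ 2) * A) := by
  obtain ⟨-, -, hnn, -, hsymm, htri⟩ := hMet n g hg
  intro x t ht
  refine le_trans (neg_le_neg ?_) (h x t ht)
  refine mul_le_mul_of_nonneg_right ?_ ((hNrm n (m + 1)).1 t).1
  have h1 : dg g p' x ≤ dg g p p' + dg g p x := by
    have h2 := htri p' p x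
    rwa [hsymm p' p] at h2
  have h3 := hnn p' x
  have h4 := hnn p p'
  have h5 := hnn p x
  rw [div_le_div_iff₀ (by positivity) (by positivity)]
  have h6 : 1 + dg g p' x ^ 2 ≤ (2 + 2 * dg g p p' ^ 2) * (1 + dg g p x ^ 2) := by
    nlinarith [mul_self_nonneg (dg g p p' - dg g p x), mul_nonneg (mul_nonneg h4 h4)
      (mul_nonneg h5 h5), mul_le_mul h1 h1 h3 (add_nonneg h4 h5)]
  calc A * (1 + dg g p' x ^ 2) ≤ A * ((2 + 2 * dg g p p' ^ 2) * (1 + dg g p x ^ 2)) :=
        mul_le_mul_of_nonneg_left h6 hA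
    _ = (2 + 2 * dg g p p' ^ 2) * A * (1 + dg g p x ^ 2) := by ring

theorem hMtg (hMet : StMet) (hDlv : StDlv) (hBus : StBus) (hNrm : TNrm) (hSmd : SSmd)
    (hKeg : SKeg) : SMtg := by
  intro n m g Γ F G hn hg hΓ hF hcpl hsec p A hA hW hW'
  obtain ⟨p', b, κ₀, r0, hb⟩ := hBus n g Γ hn hg hΓ hcpl hsec
  obtain ⟨β, hβ1, hβ2, hβ3⟩ := hSmd n g hg b hb.lip 1 one_pos
  have hβ : Lvl g b β := ⟨hβ1, hβ2, hβ3⟩
  obtain ⟨M0, hM0, hkey⟩ := hKeg n m g Γ F G hg hΓ hF hcpl hsec p' b β κ₀ r0 hb hβ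
    ((2 + 2 * dg g p p' ^ 2) * A) (by positivity) (wdec_base hMet hNrm hg hA hW)
    (wdec_base hMet hNrm hg hA hW')
  obtain ⟨N, rfl⟩ : ∃ N, M0 = N + 1 := ⟨M0 - 1, by omega⟩
  refine ⟨N, ?_⟩
  intro P hP
  obtain ⟨hvs, hvp, -⟩ := hDlv n g Γ hg hΓ
  have hvc : Continuous (vol g) := hvs.continuous
  have hBcc : ∀ c : Fin (N + 1) → ℝ, Continuous (fun x => ∑ i, c i • P i x) := fun c =>
    continuous_finset_sum _ fun i _ => ((hP i).smooth.continuous).const_smul (c i)
  have hqc : ∀ c : Fin (N + 1) → ℝ, Continuous (fun x => q2 (∑ i, c i • P i x) * vol g x) :=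
    fun c => (q2_cont.comp (hBcc c)).mul hvc
  have hq0 : ∀ (c : Fin (N + 1) → ℝ) x, 0 ≤ q2 (∑ i, c i • P i x) * vol g x := fun c x =>
    mul_nonneg ((hNrm n (m + 2)).1 _).1 (hvp x).le
  have hqcc : ∀ x, Continuous (fun c : Fin (N + 1) → ℝ => q2 (∑ i, c i • P i x) * vol g x) := by
    intro x
    refine Continuous.mul (q2_cont.comp ?_) continuous_const
    fun_prop
  choose c hc1 hc3 using fun k : ℕ => hkey (N + 1) le_rfl P hP
    (Metric.closedBall 0 k) (isCompact_closedBall _ _) (1 / ((k : ℝ) + 1)) (by positivity)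
  obtain ⟨a, ha, φ, hφ, hlim⟩ := (sphere_compact (N + 1)).tendsto_subseq hc1
  refine ⟨a, ha, ?_⟩
  have hball : ∀ L : ℕ, ∀ᵐ x ∂(volume.restrict (Metric.closedBall (0 : E n) L)),
      q2 (∑ i, a i • P i x) * vol g x = 0 := by
    intro L
    have h1 : ∫⁻ x in Metric.closedBall (0 : E n) L,
        ENNReal.ofReal (q2 (∑ i, a i • P i x) * vol g x) ≤ 0 := by
      have h2 : ∫⁻ x in Metric.closedBall (0 : E n) L,
          ENNReal.ofReal (q2 (∑ i, a i • P i x) * vol g x) =
          ∫⁻ x in Metric.closedBall (0 : E n) L, liminf (fun k => ENNReal.ofReal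
            (q2 (∑ i, c (φ k) i • P i x) * vol g x)) atTop := by
        refine lintegral_congr fun x => ?_
        exact ((ENNReal.continuous_ofReal.tendsto _).comp
          (((hqcc x).tendsto a).comp hlim)).liminf_eq.symm
      rw [h2]
      refine (lintegral_liminf_le fun k =>
        ENNReal.measurable_ofReal.comp (hqc (c (φ k))).measurable).trans ?_
      have h3 : Tendsto (fun k => ENNReal.ofReal (1 / ((φ k : ℝ) + 1))) atTop (𝓝 0) := by
        have h4 : Tendsto (fun k => 1 / ((φ k : ℝ) + 1)) atTop (𝓝 0) :=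
          tendsto_one_div_add_atTop_nhds_zero_nat.comp hφ.tendsto_atTop
        have h5 := (ENNReal.continuous_ofReal.tendsto (0 : ℝ)).comp h4
        rw [ENNReal.ofReal_zero] at h5
        exact h5
      rw [← h3.liminf_eq]
      refine liminf_le_liminf ?_
      filter_upwards [eventually_ge_atTop L] with k hk
      have hL : L ≤ φ k := hk.trans (hφ.id_le k)
      have hi : IntegrableOn (fun x => q2 (∑ i, c (φ k) i • P i x) * vol g x)
          (Metric.closedBall (0 : E n) (φ k)) :=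
        (hqc _).continuousOn.integrableOn_compact (isCompact_closedBall _ _)
      calc ∫⁻ x in Metric.closedBall (0 : E n) L, (ENNReal.ofReal ∘ fun x =>
            q2 (∑ i, c (φ k) i • P i x) * vol g x) x
          ≤ ∫⁻ x in Metric.closedBall (0 : E n) (φ k), ENNReal.ofReal
            (q2 (∑ i, c (φ k) i • P i x) * vol g x) :=
            lintegral_mono_set (Metric.closedBall_subset_closedBall (by exact_mod_cast hL))
        _ = ENNReal.ofReal (∫ x in Metric.closedBall (0 : E n) (φ k),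
            q2 (∑ i, c (φ k) i • P i x) * vol g x) := by
            rw [ofReal_integral_eq_lintegral_ofReal hi (Eventually.of_forall fun x => hq0 _ x)]
        _ ≤ ENNReal.ofReal (1 / ((φ k : ℝ) + 1)) := ENNReal.ofReal_le_ofReal (hc3 (φ k))
    have h6 := le_antisymm h1 zero_le
    have h8 : Measurable (fun x => ENNReal.ofReal (q2 (∑ i, a i • P i x) * vol g x)) :=
      ENNReal.measurable_ofReal.comp (hqc a).measurable
    rw [lintegral_eq_zero_iff h8] at h6
    filter_upwards [h6] with x hx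
    have h7 : q2 (∑ i, a i • P i x) * vol g x ≤ 0 := ENNReal.ofReal_eq_zero.1 hx
    exact le_antisymm h7 (hq0 a x)
  have hall : (fun x => q2 (∑ i, a i • P i x) * vol g x) = fun _ => 0 := by
    rw [← (hqc a).ae_eq_iff_eq (μ := (volume : Measure (E n))) continuous_const]
    have h1 : ∀ L : ℕ, ∀ᵐ x ∂(volume : Measure (E n)), x ∈ Metric.closedBall (0 : E n) L →
        q2 (∑ i, a i • P i x) * vol g x = 0 :=
      fun L => (ae_restrict_iff' measurableSet_closedBall).1 (hball L)
    filter_upwards [ae_all_iff.2 h1] with x hx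
    obtain ⟨k, hk⟩ := exists_nat_ge ‖x‖
    exact hx k (by rw [mem_closedBall_zero_iff]; exact hk)
  intro x
  have h1 : q2 (∑ i, a i • P i x) = 0 := by
    have h2 := congrFun hall x
    exact (mul_eq_zero.1 h2).resolve_right (hvp x).ne'
  exact ((hNrm n (m + 2)).1 _).2.1 h1

end Pool.Agent.Helper81.QD
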